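import Pool.Agent.Helper115.MG

set_option autoImplicit false

namespace Pool.Agent.Results.MP_b5674c_gt.DimensionOne

/-- The `n`-dimensional universal Menger compactum in the cube `[0,1]^(2n+1)`: the points such that
for every level `j` at most `n` coordinates lie in the open middle third of a triadic interval of
length `3^(-j)`. -/
def Menger (n : ℕ) : Set (Fin (2 * n + 1) → ℝ) :=
  {x | (∀ i, x i ∈ Set.Icc (0:ℝ) 1) ∧ ∀ j : ℕ, {i | 1/3 < Int.fract ((3:ℝ) ^ j * x i) ∧
    Int.fract ((3:ℝ) ^ j * x i) < 2/3}.ncard ≤ n}

/-- The case `n = 1` of Ageev's conjecture, for all `m ≥ 1`: let a nontrivial group `G` act by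
homeomorphisms on the Menger compactum of dimension `m + 1`, and freely by homeomorphisms on the
Menger curve. Then there is no continuous equivariant map from the first to the second.
No topology on `G` and no freeness of the first action is needed. -/
theorem result (m : ℕ) (hm : 0 < m) (G : Type) [Group G] [Nontrivial G]
    [MulAction G (Menger (m + 1))] [MulAction G (Menger 1)]
    [ContinuousConstSMul G (Menger (m + 1))] [ContinuousConstSMul G (Menger 1)]
    (hfree : ∀ (g : G) (x : Menger 1), g • x = x → g = 1) :
    ¬ ∃ f : Menger (m + 1) → Menger 1, Continuous f ∧ ∀ (g : G) (x : Menger (m + 1)),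
      f (g • x) = g • f x := by
  rintro ⟨f, hf, hfe⟩
  obtain ⟨g, hg⟩ := exists_ne (1 : G)
  have h1 : Continuous fun y : Menger (m + 1) => g • y := continuous_const_smul g
  have h2 : Continuous fun x : Menger 1 => g • x := continuous_const_smul g
  obtain ⟨x, hx⟩ := Pool.Agent.Helper115.MG.mainA m hm f
    (fun y : Menger (m + 1) => g • y) (fun x : Menger 1 => g • x) hf h1 h2 (fun y => hfe g y)
  exact hg (hfree g x hx)

end Pool.Agent.Results.MP_b5674c_gt.DimensionOne
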